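import Pool.Agent.MP_8d41d4_an.H88.Fin

namespace Pool.Agent.Results.MP_8d41d4_an.Uncond

open Pool.Agent.MP_8d41d4_an.H88

theorem result (X : Type*) [NormedAddCommGroup X] [NormedSpace ℝ X] [CompleteSpace X]
    (N : X → ℝ) (hN : SmoothNorm N) (c C : ℝ) (hc : 0 < c)
    (h : ∀ x, c * ‖x‖ ≤ N x ∧ N x ≤ C * ‖x‖)
    (hX : (∃ e : ℕ → X, UncondBasic e) ∨ ∃ Z : Submodule ℝ X, ¬ FiniteDimensional ℝ Z ∧
      (IsClosed (Z : Set X) ∧ Function.Surjective (NormedSpace.inclusionInDoubleDual ℝ Z) ∨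
        TopologicalSpace.IsSeparable (Z : Set X) ∧
          ∀ x, ∃ y ∈ Z, ∀ z ∈ Z, N (x - y) ≤ N (x - z))) :
    ∃ p : X → ℝ, SmoothNorm p ∧ ¬ CompleteFor p := by
  obtain ⟨e, h0, K, hK⟩ | ⟨Z, h1, h2 | h2⟩ := hX
  · exact of_good (good_of_unc (nice hN hc h) hK h0)
  · exact of_good (good_of_refl (nice hN hc h) h1 h2.2 h2.1)
  · exact of_good (good_of_prox (nice hN hc h) h2.1 h1 h2.2)

end Pool.Agent.Results.MP_8d41d4_an.Uncond
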